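import Pool.Agent.Helper66_ML.Stmts

/-!
# Squad ML, row T1: the divisibility from the transfer of the braid relations
-/

open scoped BigOperators

noncomputable section

namespace Pool.Agent.PP.ML.H60

open Pool.Agent.PP.ML

section

variable {G X : Type} [Group G] [MulAction G X]

theorem cjt_one (w : X × G × G) : cjt (1 : G) w = w := by
  simp [cjt]

theorem cjt_mul (r r' : G) (w : X × G × G) : cjt (r * r') w = cjt r (cjt r' w) := by
  simp only [cjt, mul_smul, mul_inv_rev, mul_assoc]

theorem rm_one (w : X × G × G) : rm w (1 : G) = w := by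
  simp [rm]

theorem aa_rm (w : X × G × G) (m : G) (h : m * w.2.1 = w.2.1 * m) :
    aa (rm w m) = rm w (m * w.2.1) := by
  simp only [aa, rm, mul_assoc]

theorem mem_cls_rm (R : Subgroup G) (w : X × G × G) {m : G} (hm : m ∈ mul R w) :
    rm w m ∈ cls R w := ⟨1, R.one_mem, m, hm, (cjt_one _).symm⟩

theorem mem_cls_self (R : Subgroup G) (w : X × G × G) : w ∈ cls R w :=
  ⟨1, R.one_mem, 1, (mul R w).one_mem, by rw [rm_one, cjt_one]⟩

theorem x_mem (R : Subgroup G) (w : X × G × G) : w.2.1 ∈ mul R w :=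
  (le_sup_left : Subgroup.zpowers w.2.1 ≤ mul R w) (Subgroup.mem_zpowers _)

end

theorem t1 (tau : TauStmt) (clo : CloStmt) (brd : BrdStmt) : T1Stmt := by
  intro G X A _ _ _ _ _ R g ρ hR k hk
  obtain ⟨b1, b2, b3, b4⟩ := brd G X R g hR
  have c1 := clo G X R g hR
  let Om : Type := {w : X × G × G // InOm R g w}
  have hfin : Finite Om := Subtype.finite
  let act : MulAction R Om :=
    { smul := fun r w => ⟨cjt r.1 w.1, (b1 w.1 w.2).2.2.1 r.1 r.2⟩
      one_smul := fun w => Subtype.ext (cjt_one w.1)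
      mul_smul := fun r r' w => Subtype.ext (cjt_mul r.1 r'.1 w.1) }
  have hsm : ∀ (r : R) (w : Om), (r • w).1 = cjt r.1 w.1 := fun _ _ => rfl
  have hfree : ∀ (r : R) (w : Om), r • w = w → r = 1 := by
    intro r w h
    exact Subtype.ext ((b1 w.1 w.2).2.2.2.1 r.1 r.2 (congrArg Subtype.val h))
  obtain ⟨τ, t1, t2, t3⟩ := tau Om R A ρ hfree
  let fa : Om → Om := fun w => ⟨aa w.1, (b1 w.1 w.2).1⟩
  let fb : Om → Om := fun w => ⟨bb w.1, (b1 w.1 w.2).2.1⟩
  have ha : Function.Bijective fa := by
    refine Finite.injective_iff_bijective.mp ?_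
    intro w w' h
    exact Subtype.ext (b2 (congrArg Subtype.val h))
  have hb : Function.Bijective fb := by
    refine Finite.injective_iff_bijective.mp ?_
    intro w w' h
    exact Subtype.ext (b3 (congrArg Subtype.val h))
  have har : ∀ (r : R) w, fa (r • w) = r • fa w := fun r w => Subtype.ext ((b4 r.1 w.1).1).symm
  have hbr : ∀ (r : R) w, fb (r • w) = r • fb w := fun r w => Subtype.ext ((b4 r.1 w.1).2).symm
  -- the transfer of the first generator
  have hta : τ fa = 1 := by
    refine t3 fa ha har (fun w => {w' : Om | w'.1 ∈ cls R w.1}) ?_ ?_ ?_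
    · intro w
      exact mem_cls_self R w.1
    · intro w w' h
      have h1 := ((c1 w.1 w.2).1 w'.1 h).2
      ext v
      exact iff_of_eq (congrArg (fun s => v.1 ∈ s) h1)
    · intro w
      obtain ⟨d1, d2, d3, N, d4, d5⟩ := c1 w.1 w.2
      have hIn : ∀ m : mul R w.1, InOm R g (rm w.1 m.1) := fun m =>
        (d1 _ (mem_cls_rm R w.1 m.2)).1
      refine ⟨mul R w.1, { (inferInstance : Group (mul R w.1)) with
          mul_comm := fun a b => Subtype.ext (d2 a.1 a.2 b.1 b.2) }, inferInstance,
        ⟨w.1.2.1, x_mem R w.1⟩, fun m => ⟨rm w.1 m.1, hIn m⟩, N, ?_, ?_, ?_, ?_, ?_, ?_⟩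
      · exact Subtype.ext (rm_one w.1)
      · intro m
        exact Subtype.ext (aa_rm w.1 m.1 (d2 m.1 m.2 _ (x_mem R w.1)))
      · intro m m' m'' r h
        exact Subtype.ext (d3 m.1 m.2 m'.1 m'.2 m''.1 m''.2 r.1 r.2 (congrArg Subtype.val h))
      · intro w'
        constructor
        · rintro ⟨r, hr, m, hm, h⟩
          exact ⟨⟨r, hr⟩, ⟨m, hm⟩, Subtype.ext h⟩
        · rintro ⟨r, m, h⟩
          exact ⟨r.1, r.2, m.1, m.2, congrArg Subtype.val h⟩
      · have h1 : (Subtype.val '' {w' : Om | w'.1 ∈ cls R w.1}) = cls R w.1 := by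
          ext v
          constructor
          · rintro ⟨v', h, rfl⟩
            exact h
          · intro h
            exact ⟨⟨v, (d1 v h).1⟩, h, rfl⟩
        have h2 := Set.ncard_image_of_injective {w' : Om | w'.1 ∈ cls R w.1}
          Subtype.val_injective
        rw [h1] at h2
        exact h2.symm.trans d4
      · exact Subtype.ext d5
  -- the braid relation
  have hab : Function.Bijective (fa ∘ fb) := ha.comp hb
  have hba : Function.Bijective (fb ∘ fa) := hb.comp ha
  have habr : ∀ (r : R) w, (fa ∘ fb) (r • w) = r • (fa ∘ fb) w := by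
    intro r w
    simp only [Function.comp, hbr, har]
  have hbar : ∀ (r : R) w, (fb ∘ fa) (r • w) = r • (fb ∘ fa) w := by
    intro r w
    simp only [Function.comp, hbr, har]
  have hbraid : fa ∘ (fb ∘ fa) = fb ∘ (fa ∘ fb) := by
    funext w
    exact Subtype.ext (b1 w.1 w.2).2.2.2.2.1
  have htb : τ fb = 1 := by
    have e1 := t1 fa (fb ∘ fa) ha hba har hbar
    have e2 := t1 fb fa hb ha hbr har
    have e3 := t1 fb (fa ∘ fb) hb hab hbr habr
    have e4 := t1 fa fb ha hb har hbr
    rw [hbraid, e3, e4, e2, hta, one_mul, one_mul, mul_one] at e1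
    exact mul_eq_right.mp e1
  -- products
  let P : (Om → Om) → Prop := fun f => Function.Bijective f ∧ (∀ (r : R) w, f (r • w) = r • f w) ∧
    τ f = 1
  have hP1 : P id := by
    refine ⟨Function.bijective_id, fun _ _ => rfl, ?_⟩
    have e1 := t1 id id Function.bijective_id Function.bijective_id (fun _ _ => rfl)
      (fun _ _ => rfl)
    rw [Function.comp_id] at e1
    exact (mul_eq_left.mp e1.symm)
  have hPm : ∀ f h, P f → P h → P (f ∘ h) := by
    intro f h hf hh
    refine ⟨hf.1.comp hh.1, ?_, ?_⟩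
    · intro r w
      simp only [Function.comp, hh.2.1, hf.2.1]
    · rw [t1 f h hf.1 hh.1 hf.2.1 hh.2.1, hf.2.2, hh.2.2, one_mul]
  have hPit : ∀ f, P f → ∀ j : ℕ, P (f^[j]) := by
    intro f hf j
    induction j with
    | zero => exact hP1
    | succ j ih =>
      rw [Function.iterate_succ]
      exact hPm _ _ ih hf
  have hPa : P fa := ⟨ha, har, hta⟩
  have hPb : P fb := ⟨hb, hbr, htb⟩
  have hPd : P (fun v => fa (fb (fa v))) := hPm fa (fb ∘ fa) hPa (hPm fb fa hPb hPa)
  have hPc : P (((fun v => fa (fb (fa v)))^[4])^[k]) := hPit _ (hPit _ hPd 4) k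
  have hval : ∀ (j : ℕ) (w : Om), ((fun v => fa (fb (fa v)))^[j] w).1 =
      (fun v : X × G × G => aa (bb (aa v)))^[j] w.1 := by
    intro j
    induction j with
    | zero => intro w; rfl
    | succ j ih =>
      intro w
      rw [Function.iterate_succ_apply, Function.iterate_succ_apply, ih]
  have hconj : ∀ (j : ℕ) (w : Om), ((((fun v => fa (fb (fa v)))^[4])^[j]) w).1 =
      cjt (g ^ j)⁻¹ w.1 := by
    intro j
    induction j with
    | zero =>
      intro w
      rw [pow_zero, inv_one, cjt_one]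
      rfl
    | succ j ih =>
      intro w
      rw [Function.iterate_succ_apply', hval 4, (b1 _ (Subtype.property _)).2.2.2.2.2.1, ih,
        ← cjt_mul, pow_succ', mul_inv_rev, ← mul_inv_rev, ← mul_inv_rev, pow_mul_comm']
  let c : R := ⟨g ^ k, hk⟩
  have hc : ((((fun v => fa (fb (fa v)))^[4])^[k]) : Om → Om) = fun w => c⁻¹ • w := by
    funext w
    exact Subtype.ext (hconj k w)
  have hcen : ∀ r' : R, c⁻¹ * r' = r' * c⁻¹ := by
    intro r'
    have h1 : r'.1 * g ^ k = g ^ k * r'.1 := (show Commute r'.1 g from hR r'.1 r'.2).pow_right k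
    have h2 : c * r' = r' * c := Subtype.ext h1.symm
    exact (show Commute c r' from h2).inv_left
  have h5 := t2 c⁻¹ hcen
  rw [← hc, hPc.2.2, map_inv] at h5
  have h6 : ρ c ^ (Nat.card Om / Nat.card R) = 1 := by
    rw [inv_pow] at h5
    exact inv_eq_one.mp h5.symm
  have h7 : orderOf (ρ c) ∣ Nat.card Om / Nat.card R := orderOf_dvd_of_pow_eq_one h6
  have h8 : Nat.card R ∣ Nat.card Om := by
    have hst : ∀ w : Om, MulAction.stabilizer R w = ⊥ := by
      intro w
      rw [eq_bot_iff]
      intro r hr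
      exact hfree r w hr
    have e := MulAction.selfEquivOrbitsQuotientProd (G := R) (X := Om) hst
    rw [Nat.card_congr e, Nat.card_prod]
    exact dvd_mul_left _ _
  have h9 : {w : X × G × G | InOm R g w}.ncard = Nat.card Om := rfl
  rw [h9]
  obtain ⟨q, hq⟩ := h8
  have hpos : 0 < Nat.card R := Nat.card_pos
  rw [hq] at h7 ⊢
  rw [Nat.mul_div_cancel_left _ hpos] at h7
  rw [mul_comm]
  exact Nat.mul_dvd_mul_left _ h7

end Pool.Agent.PP.ML.H60
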