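import Pool.Agent.Helper66_ML.Stmts2
import Pool.Agent.Helper32_ML.Wdv

/-!
# Squad ML, stage 2, row WDA: from the sets of tuples to the sums over the chains
-/

set_option autoImplicit false

open scoped BigOperators

noncomputable section

namespace Pool.Agent.PP.ML.H60.Wda

open Pool.Agent.Helper51_AWC Pool.Agent.Helper79_WRA Pool.Agent.PP Pool.Agent.Helper98_CC
  Pool.Agent.PP.ML Pool.Agent.PP.ML.H32

variable {ℓ : ℕ} {G : Type} [Group G] {b m : ℕ}

/-- tuples with lists of bounded length -/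
def jj (p : G × G × List.Vector G m) : G × G × List G := (p.1, p.2.1, p.2.2.1)

theorem jj_inj : Function.Injective (jj : G × G × List.Vector G m → G × G × List G) := by
  intro p q h
  have h1 := congrArg Prod.fst h
  have h2 := congrArg (fun v => v.2.1) h
  have h3 := congrArg (fun v => v.2.2) h
  exact Prod.ext h1 (Prod.ext h2 (Subtype.ext h3))

/-- the group generated by the tuple -/
def KK (p : G × G × List G) : Subgroup G :=
  Subgroup.closure (insert p.1 (insert p.2.1 {z | z ∈ p.2.2}))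

theorem KK_le (p : G × G × List G) (H : Subgroup G) :
    KK p ≤ H ↔ p.1 ∈ H ∧ p.2.1 ∈ H ∧ ∀ z ∈ p.2.2, z ∈ H := by
  unfold KK
  rw [Subgroup.closure_le, Set.insert_subset_iff, Set.insert_subset_iff]
  rfl

/-- the tuples with the relation in the stabiliser of a chain -/
def Cm (ℓ : ℕ) (Cs : List (Set G)) (g : G) (d : Finset (Subgroup G)) (p : G × G × List G) : Prop :=
  d ∈ pChains ℓ G ∧ p.1 ∈ stab d ∧ p.2.1 ∈ stab d ∧ (∀ z ∈ p.2.2, z ∈ stab d) ∧
    List.Forall₂ (fun z K => z ∈ K) p.2.2 Cs ∧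
    p.1 * p.2.1 * p.1⁻¹ * p.2.1⁻¹ = g * p.2.2.prod

/-- the bad tuples -/
def Bad (R : Subgroup G) (d : Finset (Subgroup G)) (p : G × G × List G) : Prop :=
  ∃ U : Subgroup G, U ≠ ⊥ ∧ U ≤ R ∧ U ≤ stab d ∧ ∀ x ∈ KK p, ∀ u ∈ U, x * u * x⁻¹ ∈ U

theorem conj_inv [Finite G] (U : Subgroup G) (x : G) (h : ∀ u ∈ U, x * u * x⁻¹ ∈ U) :
    ∀ u ∈ U, x⁻¹ * u * x⁻¹⁻¹ ∈ U := by
  intro u hu
  let f : U → U := fun v => ⟨x * v.1 * x⁻¹, h v.1 v.2⟩
  have hf : Function.Injective f := by
    intro v w hvw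
    have h1 : x * v.1 * x⁻¹ = x * w.1 * x⁻¹ := congrArg Subtype.val hvw
    have h2 : v.1 = w.1 := mul_left_cancel (mul_right_cancel h1)
    exact Subtype.ext h2
  obtain ⟨v, hv⟩ := (Finite.injective_iff_surjective.mp hf) ⟨u, hu⟩
  have h3 : x * v.1 * x⁻¹ = u := congrArg Subtype.val hv
  have h4 : x⁻¹ * u * x⁻¹⁻¹ = v.1 := by
    rw [← h3]
    group
  rw [h4]
  exact v.2

theorem norm_closure [Finite G] (U : Subgroup G) (S : Set G)
    (h : ∀ x ∈ S, ∀ u ∈ U, x * u * x⁻¹ ∈ U) :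
    ∀ x ∈ Subgroup.closure S, ∀ u ∈ U, x * u * x⁻¹ ∈ U := by
  intro x hx
  induction hx using Subgroup.closure_induction with
  | mem x hx => exact h x hx
  | one => intro u hu; simpa using hu
  | mul x y _ _ h1 h2 =>
    intro u hu
    have h3 : x * y * u * (x * y)⁻¹ = x * (y * u * y⁻¹) * x⁻¹ := by group
    rw [h3]
    exact h1 _ (h2 u hu)
  | inv x _ h1 => exact conj_inv U x h1

theorem inOm_iff [Finite G] (R : Subgroup G) (Cs : List (Set G)) (g : G)
    (w : XX ℓ G b × G × G × List G) :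
    InOmL R g Cs w ↔ Cm ℓ Cs g w.1.1 w.2 ∧ ¬ Bad R w.1.1 w.2 := by
  constructor
  · intro h
    refine ⟨⟨w.1.2.1, (smul_eq_iff _ _).1 h.sx, (smul_eq_iff _ _).1 h.sy,
      fun z hz => (smul_eq_iff _ _).1 (h.sl z hz), h.ml, h.cm⟩, ?_⟩
    rintro ⟨U, h1, h2, h3, h4⟩
    refine h1 (h.tr U h2 (fun u hu => (smul_eq_iff _ _).2 (h3 hu)) (h4 _ ?_) (h4 _ ?_) ?_)
    · exact Subgroup.subset_closure (Set.mem_insert _ _)
    · exact Subgroup.subset_closure (Set.mem_insert_of_mem _ (Set.mem_insert _ _))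
    · intro z hz
      exact h4 z (Subgroup.subset_closure (Set.mem_insert_of_mem _ (Set.mem_insert_of_mem _ hz)))
  · rintro ⟨⟨_, h2, h3, h4, h5, h6⟩, h7⟩
    refine ⟨(smul_eq_iff _ _).2 h2, (smul_eq_iff _ _).2 h3,
      fun z hz => (smul_eq_iff _ _).2 (h4 z hz), h5, h6, ?_⟩
    intro U k1 k2 k3 k4 k5
    by_contra k6
    refine h7 ⟨U, k6, k1, fun u hu => (smul_eq_iff _ _).1 (k2 u hu), ?_⟩
    refine norm_closure U _ ?_
    intro x hx
    rcases hx with rfl | rfl | hx
    · exact k3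
    · exact k4
    · exact k5 x hx

open Classical in
theorem torusL_eq [Fintype G] [Fintype (Finset (Subgroup G))] (Cs : List (Set G)) (g : G) :
    torusL ℓ Cs g = ∑ d : Finset (Subgroup G), ∑ p : G × G × List.Vector G Cs.length,
      if Cm ℓ Cs g d (jj p) then (-1 : ℤ) ^ d.card else 0 := by
  unfold torusL
  rw [finsum_eq_sum_of_fintype]
  apply Finset.sum_congr rfl
  intro d _
  rw [finsum_eq_if]
  split_ifs with h
  · have h1 : commL (stab d) Cs g =
        (Finset.univ.filter (fun p : G × G × List.Vector G Cs.length =>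
          Cm ℓ Cs g d (jj p))).card := by
      have h2 : commL (stab d) Cs g = {p : G × G × List G | Cm ℓ Cs g d p}.ncard := by
        rw [← Nat.card_coe_set_eq]
        unfold commL
        refine Nat.card_congr (Equiv.subtypeEquivRight fun p => ?_)
        constructor
        · intro hp
          exact ⟨h, hp.1, hp.2.1, hp.2.2.1, hp.2.2.2.1, hp.2.2.2.2⟩
        · intro hp
          exact ⟨hp.2.1, hp.2.2.1, hp.2.2.2.1, hp.2.2.2.2.1, hp.2.2.2.2.2⟩
      rw [h2, ← Set.ncard_coe_finset, ← Set.ncard_image_of_injective _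
        (jj_inj : Function.Injective (jj : G × G × List.Vector G Cs.length → _))]
      congr 1
      ext q
      simp only [Set.mem_image, Set.mem_ofPred_eq, Finset.coe_filter, Finset.mem_univ, true_and]
      constructor
      · intro hq
        exact ⟨(q.1, q.2.1, ⟨q.2.2, hq.2.2.2.2.1.length_eq⟩), hq, rfl⟩
      · rintro ⟨p, hp, rfl⟩
        exact hp
    rw [h1, ← Finset.sum_filter, Finset.sum_const, nsmul_eq_mul, mul_comm]
  · symm
    apply Finset.sum_eq_zero
    intro p _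
    rw [if_neg]
    intro h1
    exact h h1.1

open Classical in
theorem good_card [Fintype G] [Fintype (Finset (Subgroup G))] (R : Subgroup G)
    (Cs : List (Set G)) (g : G) (b : ℕ) :
    {w : XX ℓ G b × G × G × List G | InOmL R g Cs w}.ncard =
      (Finset.univ.filter (fun q : Finset (Subgroup G) × G × G × List.Vector G Cs.length =>
        (Cm ℓ Cs g q.1 (jj q.2) ∧ ¬ Bad R q.1 (jj q.2)) ∧ q.1.card % 2 = b)).card := by
  have hinj : Function.Injective
      (fun w : XX ℓ G b × G × G × List G =>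
        ((w.1.1, w.2) : Finset (Subgroup G) × G × G × List G)) := by
    intro w w' h
    have h1 := congrArg Prod.fst h
    have h2 := congrArg Prod.snd h
    exact Prod.ext (Subtype.ext h1) h2
  have hinj2 : Function.Injective
      (fun q : Finset (Subgroup G) × G × G × List.Vector G Cs.length =>
        ((q.1, jj q.2) : Finset (Subgroup G) × G × G × List G)) := by
    intro w w' h
    have h1 := congrArg Prod.fst h
    have h2 := congrArg Prod.snd h
    exact Prod.ext h1 (jj_inj h2)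
  rw [← Set.ncard_image_of_injective _ hinj, ← Set.ncard_coe_finset,
    ← Set.ncard_image_of_injective _ hinj2]
  congr 1
  ext q
  simp only [Set.mem_image, Set.mem_ofPred_eq, Finset.coe_filter, Finset.mem_univ, true_and]
  constructor
  · rintro ⟨w, hw, rfl⟩
    have h1 := (inOm_iff R Cs g w).1 hw
    exact ⟨(w.1.1, w.2.1, w.2.2.1, ⟨w.2.2.2, hw.ml.length_eq⟩), ⟨h1, w.1.2.2⟩, rfl⟩
  · rintro ⟨p, ⟨h1, h2⟩, rfl⟩
    exact ⟨(⟨p.1, h1.1.1, h2⟩, jj p.2), (inOm_iff R Cs g _).2 h1, rfl⟩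

/-- WDA. -/
theorem wda (MOB : MobKStmt) : WdaStmt := by
  classical
  intro ℓ _ G _ _ R g hR Cs m hm
  have : Fintype G := Fintype.ofFinite G
  have : Fintype (Finset (Subgroup G)) := Fintype.ofFinite _
  have hT : ∀ b : ℕ, (m : ℤ) ∣
      ((Finset.univ.filter (fun q : Finset (Subgroup G) × G × G × List.Vector G Cs.length =>
        (Cm ℓ Cs g q.1 (jj q.2) ∧ ¬ Bad R q.1 (jj q.2)) ∧ q.1.card % 2 = b)).card : ℤ) := by
    intro b
    have : Finite (XX ℓ G b) := by
      unfold XX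
      infer_instance
    have h1 := hm (XX ℓ G b)
    rw [good_card] at h1
    exact_mod_cast h1
  rw [torusL_eq]
  have hsplit : ∀ (d : Finset (Subgroup G)) (p : G × G × List.Vector G Cs.length),
      (if Cm ℓ Cs g d (jj p) then (-1 : ℤ) ^ d.card else 0) =
        ((if (Cm ℓ Cs g d (jj p) ∧ ¬ Bad R d (jj p)) ∧ d.card % 2 = 0 then 1 else 0) -
        (if (Cm ℓ Cs g d (jj p) ∧ ¬ Bad R d (jj p)) ∧ d.card % 2 = 1 then 1 else 0)) +
        (if Cm ℓ Cs g d (jj p) ∧ Bad R d (jj p) then (-1 : ℤ) ^ d.card else 0) := by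
    intro d p
    by_cases h1 : Cm ℓ Cs g d (jj p)
    · by_cases h2 : Bad R d (jj p)
      · simp [h1, h2]
      · rcases Nat.mod_two_eq_zero_or_one d.card with h3 | h3
        · have h4 : (-1 : ℤ) ^ d.card = 1 := Even.neg_one_pow (Nat.even_iff.2 h3)
          simp [h1, h2, h3, h4]
        · have h4 : (-1 : ℤ) ^ d.card = -1 := Odd.neg_one_pow (Nat.odd_iff.2 h3)
          simp [h1, h2, h3, h4]
    · simp [h1]
  have hbad : ∑ d : Finset (Subgroup G), ∑ p : G × G × List.Vector G Cs.length,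
      (if Cm ℓ Cs g d (jj p) ∧ Bad R d (jj p) then (-1 : ℤ) ^ d.card else 0) = 0 := by
    rw [Finset.sum_comm]
    apply Finset.sum_eq_zero
    intro p _
    by_cases hp : List.Forall₂ (fun z K => z ∈ K) (jj p).2.2 Cs ∧
        (jj p).1 * (jj p).2.1 * (jj p).1⁻¹ * (jj p).2.1⁻¹ = g * (jj p).2.2.prod
    · have h1 := MOB ℓ G R hR (KK (jj p))
      rw [finsum_eq_sum_of_fintype] at h1
      refine Eq.trans ?_ h1
      apply Finset.sum_congr rfl
      intro d _
      rw [finsum_eq_if]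
      apply if_congr _ rfl rfl
      constructor
      · rintro ⟨⟨h2, h3, h4, h5, -⟩, h6⟩
        exact ⟨h2, (KK_le _ _).2 ⟨h3, h4, h5⟩, h6⟩
      · rintro ⟨h2, h3, h6⟩
        obtain ⟨h3, h4, h5⟩ := (KK_le _ _).1 h3
        exact ⟨⟨h2, h3, h4, h5, hp.1, hp.2⟩, h6⟩
    · apply Finset.sum_eq_zero
      intro d _
      rw [if_neg]
      intro h
      exact hp ⟨h.1.2.2.2.2.1, h.1.2.2.2.2.2⟩
  have hcard : ∀ b : ℕ, ∑ d : Finset (Subgroup G), ∑ p : G × G × List.Vector G Cs.length,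
      (if (Cm ℓ Cs g d (jj p) ∧ ¬ Bad R d (jj p)) ∧ d.card % 2 = b then (1 : ℤ) else 0) =
      ((Finset.univ.filter (fun q : Finset (Subgroup G) × G × G × List.Vector G Cs.length =>
        (Cm ℓ Cs g q.1 (jj q.2) ∧ ¬ Bad R q.1 (jj q.2)) ∧ q.1.card % 2 = b)).card : ℤ) := by
    intro b
    rw [Finset.card_filter, Fintype.sum_prod_type]
    push_cast
    rfl
  rw [Finset.sum_congr rfl fun d _ => Finset.sum_congr rfl fun p _ => hsplit d p]
  simp only [Finset.sum_add_distrib, Finset.sum_sub_distrib]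
  rw [hbad, add_zero, hcard, hcard]
  exact dvd_sub (hT 0) (hT 1)

end Pool.Agent.PP.ML.H60.Wda
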